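import Pool.Agent.H91.LF.Defs2

/-!
Common tools for the modules UA and UB of the project LF: the finite averages.
-/

set_option autoImplicit false

open Filter Topology

namespace Pool.Agent.H12.LF

open Pool.Agent.H91.LF

variable {m : ℕ}

/-- The total weight of the box. -/
noncomputable def Wt (m T : ℕ) : ℝ := ∑ t ∈ box m T, wt t

/-- The harmonic sum over `[x, y]`. -/
noncomputable def Ls (x y : ℕ) : ℝ := ∑ N ∈ Finset.Icc x y, (1 / (N : ℝ))

/-- The natural average over the square. -/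
noncomputable def Sq (f : (Fin (m + 2) → ℤ) → ℝ) (t : Fin m → ℕ) (N : ℕ) : ℝ :=
  ∑ n ∈ Finset.Icc 1 N, ∑ n' ∈ Finset.Icc 1 N, f (pt (n : ℤ) (n' : ℤ) (fun l => (t l : ℤ)))

/-- The inner average. -/
noncomputable def Gf (x y : ℕ) (f : (Fin (m + 2) → ℤ) → ℝ) (t : Fin m → ℕ) : ℝ :=
  ∑ N ∈ Finset.Icc x y, (1 / (N : ℝ)) * (Sq f t N / (N : ℝ) ^ 2)

theorem avg_eq (T x y : ℕ) (f : (Fin (m + 2) → ℤ) → ℝ) :
    avg m T x y f = (∑ t ∈ box m T, wt t * Gf x y f t) / (Wt m T * Ls x y) := rfl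

theorem wt_nonneg (t : Fin m → ℕ) : 0 ≤ wt t := by
  unfold wt
  exact Finset.prod_nonneg fun l _ => by positivity

theorem Wt_nonneg (T : ℕ) : 0 ≤ Wt m T := Finset.sum_nonneg fun t _ => wt_nonneg t

theorem Ls_nonneg (x y : ℕ) : 0 ≤ Ls x y := Finset.sum_nonneg fun N _ => by positivity

theorem Sq_abs_le {f : (Fin (m + 2) → ℤ) → ℝ} {C : ℝ} (hf : ∀ ω, |f ω| ≤ C) (t : Fin m → ℕ)
    (N : ℕ) : |Sq f t N| ≤ C * (N : ℝ) ^ 2 := by
  unfold Sq
  refine (Finset.abs_sum_le_sum_abs _ _).trans ?_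
  have h1 : ∀ n ∈ Finset.Icc 1 N, |∑ n' ∈ Finset.Icc 1 N,
      f (pt (n : ℤ) (n' : ℤ) (fun l => (t l : ℤ)))| ≤ C * N := by
    intro n _
    refine (Finset.abs_sum_le_sum_abs _ _).trans ?_
    refine (Finset.sum_le_sum (fun n' _ => hf _)).trans ?_
    simp [mul_comm]
  refine (Finset.sum_le_sum h1).trans ?_
  simp only [Finset.sum_const, Nat.card_Icc, Nat.add_sub_cancel, nsmul_eq_mul]
  exact le_of_eq (by ring)

theorem Sq_div_abs_le {f : (Fin (m + 2) → ℤ) → ℝ} {C : ℝ} (hf : ∀ ω, |f ω| ≤ C)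
    (t : Fin m → ℕ) (N : ℕ) : |Sq f t N / (N : ℝ) ^ 2| ≤ C := by
  have hC : 0 ≤ C := (abs_nonneg _).trans (hf 0)
  rcases Nat.eq_zero_or_pos N with h | h
  · subst h; simpa using hC
  · have h2 : (0 : ℝ) < (N : ℝ) ^ 2 := by positivity
    rw [abs_div, abs_of_pos h2, div_le_iff₀ h2]
    exact Sq_abs_le hf t N

theorem Gf_abs_le {f : (Fin (m + 2) → ℤ) → ℝ} {C : ℝ} (hf : ∀ ω, |f ω| ≤ C) (x y : ℕ)
    (t : Fin m → ℕ) : |Gf x y f t| ≤ C * Ls x y := by
  unfold Gf Ls
  refine (Finset.abs_sum_le_sum_abs _ _).trans ?_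
  rw [Finset.mul_sum]
  refine Finset.sum_le_sum fun N _ => ?_
  rw [abs_mul, abs_of_nonneg (by positivity : (0 : ℝ) ≤ 1 / (N : ℝ)), mul_comm]
  exact mul_le_mul_of_nonneg_right (Sq_div_abs_le hf t N) (by positivity)

/-- Differences of averages from a pointwise bound in `t`. -/
theorem avg_diff_inner {f g : (Fin (m + 2) → ℤ) → ℝ} {T x y : ℕ} {E : ℝ} (hE : 0 ≤ E)
    (h : ∀ t, |Gf x y f t - Gf x y g t| ≤ E) (hL : 0 < Ls x y) :
    |avg m T x y f - avg m T x y g| ≤ E / Ls x y := by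
  rw [avg_eq, avg_eq, ← sub_div, ← Finset.sum_sub_distrib]
  rcases (Wt_nonneg (m := m) T).eq_or_lt with hW | hW
  · rw [← hW]; simp; positivity
  · rw [abs_div, abs_of_pos (mul_pos hW hL), div_le_div_iff₀ (mul_pos hW hL) hL]
    have h1 : |∑ t ∈ box m T, (wt t * Gf x y f t - wt t * Gf x y g t)| ≤ Wt m T * E := by
      refine (Finset.abs_sum_le_sum_abs _ _).trans ?_
      unfold Wt
      rw [Finset.sum_mul]
      refine Finset.sum_le_sum fun t _ => ?_
      rw [← mul_sub, abs_mul, abs_of_nonneg (wt_nonneg t)]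
      exact mul_le_mul_of_nonneg_left (h t) (wt_nonneg t)
    calc _ ≤ (Wt m T * E) * Ls x y := mul_le_mul_of_nonneg_right h1 hL.le
      _ = _ := by ring

theorem mem_box {T : ℕ} {t : Fin m → ℕ} : t ∈ box m T ↔ ∀ l, 1 ≤ t l ∧ t l ≤ T := by
  unfold box
  simp [Fintype.mem_piFinset, Finset.mem_Icc]

/-- Fibering the box over the coordinate `l`. -/
theorem sum_box {T : ℕ} (l : Fin m) (F : (Fin m → ℕ) → ℝ) :
    ∑ t ∈ box m T, F t = ∑ s ∈ (box m T).filter (fun s => s l = 1), ∑ a ∈ Finset.Icc 1 T,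
      F (Function.update s l a) := by
  rw [← Finset.sum_product']
  refine Finset.sum_bij' (fun t _ => (Function.update t l 1, t l))
    (fun q _ => Function.update q.1 l q.2) ?_ ?_ ?_ ?_ ?_
  · intro t ht
    rw [mem_box] at ht
    have h1 := ht l
    simp only [Finset.mem_product, Finset.mem_filter, Finset.mem_Icc, mem_box,
      Function.update_self, and_true]
    refine ⟨fun i => ?_, h1⟩
    rcases eq_or_ne i l with h | h
    · subst h; rw [Function.update_self]; omega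
    · rw [Function.update_of_ne h]; exact ht i
  · intro q hq
    simp only [Finset.mem_product, Finset.mem_filter, Finset.mem_Icc, mem_box] at hq
    rw [mem_box]
    intro i
    rcases eq_or_ne i l with h | h
    · subst h; rw [Function.update_self]; exact hq.2
    · rw [Function.update_of_ne h]; exact hq.1.1 i
  · intro t _
    simp
  · intro q hq
    simp only [Finset.mem_product, Finset.mem_filter, Finset.mem_Icc, mem_box] at hq
    ext1
    · simp only [Function.update_idem]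
      rw [← hq.1.2, Function.update_eq_self]
    · simp
  · intro t _
    simp

theorem wt_update {s : Fin m → ℕ} {l : Fin m} (hs : s l = 1) (a : ℕ) :
    wt (Function.update s l a) = wt s * (1 / (a : ℝ)) := by
  unfold wt
  rw [← Finset.mul_prod_erase Finset.univ _ (Finset.mem_univ l),
    ← Finset.mul_prod_erase Finset.univ (fun i => (1 : ℝ) / (s i : ℝ)) (Finset.mem_univ l)]
  rw [Function.update_self, hs]
  have : ∀ i ∈ Finset.univ.erase l, (1 : ℝ) / ((Function.update s l a i : ℕ) : ℝ) =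
      1 / (s i : ℝ) := by
    intro i hi
    rw [Function.update_of_ne (Finset.ne_of_mem_erase hi)]
  rw [Finset.prod_congr rfl this]
  push_cast
  ring

/-- The weight of the box without the coordinate `l`. -/
noncomputable def Wt' (m T : ℕ) (l : Fin m) : ℝ :=
  ∑ s ∈ (box m T).filter (fun s => s l = 1), wt s

theorem Wt'_nonneg (T : ℕ) (l : Fin m) : 0 ≤ Wt' m T l :=
  Finset.sum_nonneg fun s _ => wt_nonneg s

theorem Wt_eq (T : ℕ) (l : Fin m) : Wt m T = Wt' m T l * Ls 1 T := by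
  unfold Wt Wt' Ls
  rw [sum_box l, Finset.sum_mul]
  refine Finset.sum_congr rfl fun s hs => ?_
  rw [Finset.mul_sum]
  refine Finset.sum_congr rfl fun a _ => ?_
  rw [wt_update (Finset.mem_filter.1 hs).2]

/-- Differences of averages from a bound on the fibers in one `t` coordinate. -/
theorem avg_diff_fiber {f g : (Fin (m + 2) → ℤ) → ℝ} {T x y : ℕ} {E : ℝ} (hE : 0 ≤ E)
    (l : Fin m)
    (h : ∀ s : Fin m → ℕ, |∑ a ∈ Finset.Icc 1 T, (1 / (a : ℝ)) *
      (Gf x y f (Function.update s l a) - Gf x y g (Function.update s l a))| ≤ E * Ls x y)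
    (hL : 0 < Ls x y) (hH : 0 < Ls 1 T) :
    |avg m T x y f - avg m T x y g| ≤ E / Ls 1 T := by
  rw [avg_eq, avg_eq, ← sub_div, ← Finset.sum_sub_distrib]
  rcases (Wt'_nonneg (m := m) T l).eq_or_lt with hW | hW
  · rw [Wt_eq T l, ← hW]; simp; positivity
  · have h1 : |∑ t ∈ box m T, (wt t * Gf x y f t - wt t * Gf x y g t)| ≤
        Wt' m T l * (E * Ls x y) := by
      rw [sum_box l]
      refine (Finset.abs_sum_le_sum_abs _ _).trans ?_
      unfold Wt'
      rw [Finset.sum_mul]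
      refine Finset.sum_le_sum fun s hs => ?_
      have h2 : ∑ a ∈ Finset.Icc 1 T, (wt (Function.update s l a) *
          Gf x y f (Function.update s l a) - wt (Function.update s l a) *
          Gf x y g (Function.update s l a)) = wt s * ∑ a ∈ Finset.Icc 1 T, (1 / (a : ℝ)) *
          (Gf x y f (Function.update s l a) - Gf x y g (Function.update s l a)) := by
        rw [Finset.mul_sum]
        refine Finset.sum_congr rfl fun a _ => ?_
        rw [wt_update (Finset.mem_filter.1 hs).2]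
        ring
      rw [h2, abs_mul, abs_of_nonneg (wt_nonneg s)]
      exact mul_le_mul_of_nonneg_left (h s) (wt_nonneg s)
    rw [Wt_eq T l, abs_div, abs_of_pos (mul_pos (mul_pos hW hH) hL),
      div_le_div_iff₀ (mul_pos (mul_pos hW hH) hL) hH]
    calc _ ≤ (Wt' m T l * (E * Ls x y)) * Ls 1 T := mul_le_mul_of_nonneg_right h1 hH.le
      _ = _ := by ring

/-! ### Growth of the harmonic sums -/

theorem Ls_ge_succ {x y : ℕ} (hx : 0 < x) (hxy : x ≤ y) :
    Real.log (((y + 1 : ℕ) : ℝ) / x) ≤ Ls x y := by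
  have hx' : (0 : ℝ) < x := by exact_mod_cast hx
  have key : ∀ n : ℕ, 0 < n → Real.log (((n + 1 : ℕ) : ℝ) / n) ≤ 1 / (n : ℝ) := by
    intro n hn
    have hn' : (0 : ℝ) < n := by exact_mod_cast hn
    have h1 : ((n + 1 : ℕ) : ℝ) / n = 1 + 1 / (n : ℝ) := by
      push_cast
      field_simp
    rw [h1]
    have := Real.log_le_sub_one_of_pos (show (0 : ℝ) < 1 + 1 / (n : ℝ) by positivity)
    linarith
  induction y, hxy using Nat.le_induction with
  | base =>
    unfold Ls
    rw [Finset.Icc_self, Finset.sum_singleton]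
    exact key x hx
  | succ y hxy ih =>
    have hy : (0 : ℝ) < ((y + 1 : ℕ) : ℝ) := by positivity
    have h1 : Ls x (y + 1) = Ls x y + 1 / ((y + 1 : ℕ) : ℝ) := by
      unfold Ls
      rw [Finset.sum_Icc_succ_top (by omega)]
    have h2 : Real.log (((y + 1 + 1 : ℕ) : ℝ) / x) = Real.log (((y + 1 : ℕ) : ℝ) / x) +
        Real.log (((y + 1 + 1 : ℕ) : ℝ) / ((y + 1 : ℕ) : ℝ)) := by
      rw [← Real.log_mul (by positivity) (by positivity)]
      congr 1
      field_simp
    rw [h1, h2]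
    exact add_le_add ih (key (y + 1) (by omega))

theorem Ls_ge {x y : ℕ} (hx : 0 < x) (hxy : x ≤ y) : Real.log ((y : ℝ) / x) ≤ Ls x y := by
  refine le_trans ?_ (Ls_ge_succ hx hxy)
  have hx' : (0 : ℝ) < x := by exact_mod_cast hx
  have hy' : (0 : ℝ) < y := by exact_mod_cast (hx.trans_le hxy)
  apply Real.log_le_log (by positivity)
  push_cast
  gcongr
  linarith

theorem Ls_ge' {x y : ℕ} (hx : 0 < x) : Real.log ((y : ℝ) / x) ≤ Ls x y := by
  rcases le_or_gt x y with h | h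
  · exact Ls_ge hx h
  · refine le_trans ?_ (Ls_nonneg x y)
    have hx' : (0 : ℝ) < x := by exact_mod_cast hx
    apply Real.log_nonpos (by positivity)
    rw [div_le_one hx']
    exact_mod_cast h.le

/-- The harmonic sums over `[x j, y j]` tend to infinity. -/
theorem tendsto_Ls {x y : ℕ → ℕ} (hx : ∀ j, 0 < x j)
    (h : Tendsto (fun j => Real.log ((y j : ℝ) / x j)) atTop atTop) :
    Tendsto (fun j => Ls (x j) (y j)) atTop atTop :=
  tendsto_atTop_mono (fun j => Ls_ge' (hx j)) h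

/-- The harmonic sums over `[1, T j]` tend to infinity. -/
theorem tendsto_Ls_one {T : ℕ → ℕ} (hT : Tendsto T atTop atTop) :
    Tendsto (fun j => Ls 1 (T j)) atTop atTop := by
  apply tendsto_Ls (fun _ => Nat.one_pos)
  simp only [Nat.cast_one, div_one]
  exact Real.tendsto_log_atTop.comp (tendsto_natCast_atTop_atTop.comp hT)

/-- Convergence of a difference from a bound by a constant over a quantity tending to
infinity. -/
theorem tendsto_of_bound {a b : ℕ → ℝ} {E : ℝ} (hb : Tendsto b atTop atTop)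
    (h : ∀ᶠ j in atTop, |a j| ≤ E / b j) : Tendsto a atTop (𝓝 0) := by
  rw [tendsto_zero_iff_abs_tendsto_zero]
  have h1 : Tendsto (fun j => E / b j) atTop (𝓝 0) := hb.const_div_atTop E
  exact tendsto_of_tendsto_of_tendsto_of_le_of_le' tendsto_const_nhds h1
    (Eventually.of_forall fun j => abs_nonneg _) h

theorem sum_inv_sq_le {x : ℕ} (hx : 0 < x) (y : ℕ) :
    ∑ N ∈ Finset.Icc x y, (1 : ℝ) / (N : ℝ) ^ 2 ≤ 2 := by
  have h1 : ∑ N ∈ Finset.Icc x y, (1 : ℝ) / (N : ℝ) ^ 2 ≤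
      ∑ N ∈ Finset.Icc 1 y, (1 : ℝ) / (N : ℝ) ^ 2 :=
    Finset.sum_le_sum_of_subset_of_nonneg (Finset.Icc_subset_Icc_left hx)
      (fun i _ _ => by positivity)
  refine h1.trans ?_
  rcases Nat.eq_zero_or_pos y with h | h
  · subst h; simp
  · have h2 : ∑ N ∈ Finset.Icc 1 y, (1 : ℝ) / (N : ℝ) ^ 2 ≤ 2 - 1 / (y : ℝ) := by
      have h' : 1 ≤ y := h
      clear h1 h
      induction y, h' using Nat.le_induction with
      | base => norm_num
      | succ y hy ih =>
        rw [Finset.sum_Icc_succ_top (by omega)]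
        have hy' : (0 : ℝ) < y := by exact_mod_cast hy
        have h3 : (1 : ℝ) / ((y + 1 : ℕ) : ℝ) ^ 2 ≤ 1 / (y : ℝ) - 1 / ((y + 1 : ℕ) : ℝ) := by
          push_cast
          rw [div_sub_div _ _ hy'.ne' (by positivity), div_le_div_iff₀ (by positivity)
            (by positivity)]
          nlinarith
        linarith
    have : (0 : ℝ) ≤ 1 / (y : ℝ) := by positivity
    linarith

theorem Gf_diff_le {f g : (Fin (m + 2) → ℤ) → ℝ} {D : ℝ} {t : Fin m → ℕ} (hD : 0 ≤ D)
    (h : ∀ N, |Sq f t N - Sq g t N| ≤ D * N) {x : ℕ} (hx : 0 < x) (y : ℕ) :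
    |Gf x y f t - Gf x y g t| ≤ 2 * D := by
  unfold Gf
  rw [← Finset.sum_sub_distrib]
  refine (Finset.abs_sum_le_sum_abs _ _).trans ?_
  have h1 : ∀ N ∈ Finset.Icc x y, |(1 / (N : ℝ)) * (Sq f t N / (N : ℝ) ^ 2) -
      (1 / (N : ℝ)) * (Sq g t N / (N : ℝ) ^ 2)| ≤ D * (1 / (N : ℝ) ^ 2) := by
    intro N hN
    have hN' : (0 : ℝ) < N := by
      have := (Finset.mem_Icc.1 hN).1
      exact_mod_cast (hx.trans_le this)
    have h2 : (1 / (N : ℝ)) * (Sq f t N / (N : ℝ) ^ 2) -
      (1 / (N : ℝ)) * (Sq g t N / (N : ℝ) ^ 2) = (Sq f t N - Sq g t N) / (N : ℝ) ^ 3 := by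
      field_simp
    rw [h2, abs_div, abs_of_pos (by positivity : (0 : ℝ) < (N : ℝ) ^ 3),
      div_le_iff₀ (by positivity)]
    refine (h N).trans (le_of_eq ?_)
    field_simp
  refine (Finset.sum_le_sum h1).trans ?_
  rw [← Finset.mul_sum, mul_comm]
  exact mul_le_mul_of_nonneg_right (sum_inv_sq_le hx y) hD

/-! ### The values of `pt` -/

theorem pt_zero (n n' : ℤ) (t : Fin m → ℤ) : pt n n' t 0 = n := rfl

theorem pt_one (n n' : ℤ) (t : Fin m → ℤ) : pt n n' t 1 = n' := rfl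

theorem pt_succ (n n' : ℤ) (t : Fin m → ℤ) (l : Fin m) : pt n n' t l.succ.succ = t l := rfl

theorem fin_cases (P : Fin (m + 2) → Prop) (h0 : P 0) (h1 : P 1) (h : ∀ l : Fin m, P l.succ.succ)
    (i : Fin (m + 2)) : P i := by
  refine Fin.cases h0 (fun j => ?_) i
  exact Fin.cases h1 h j

theorem eq_pt {ω : Fin (m + 2) → ℤ} {n n' : ℤ} {t : Fin m → ℤ} (h0 : ω 0 = n) (h1 : ω 1 = n')
    (h : ∀ l : Fin m, ω l.succ.succ = t l) : ω = pt n n' t := by
  funext i
  exact fin_cases (P := fun i => ω i = pt n n' t i) h0 h1 h i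

end Pool.Agent.H12.LF
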