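import Pool.Agent.H12.LF.Av

/-!
Module UA of the project LF: asymptotic translation invariance of the finite averages.
-/

set_option autoImplicit false

open Filter Topology

namespace Pool.Agent.H12.LF

open Pool.Agent.H91.LF

variable {m : ℕ}

theorem bdd_nonneg {f : (Fin (m + 2) → ℤ) → ℝ} {C : ℝ} (hf : ∀ ω, |f ω| ≤ C) : 0 ≤ C :=
  (abs_nonneg _).trans (hf 0)

/-- Telescoping. -/
theorem tele (F : ℕ → ℝ) (N : ℕ) : ∑ n ∈ Finset.Icc 1 N, (F (n + 1) - F n) = F (N + 1) - F 1 := by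
  induction N with
  | zero => simp
  | succ N ih =>
    rw [Finset.sum_Icc_succ_top (by omega), ih]
    ring

theorem abel_le {g : ℕ → ℝ} {S : ℝ} (hg : ∀ a, |g a| ≤ S) (T : ℕ) :
    |∑ a ∈ Finset.Icc 1 T, (1 / (a : ℝ)) * (g (a + 1) - g a)| ≤ 2 * S := by
  have hS : 0 ≤ S := (abs_nonneg _).trans (hg 0)
  rcases Nat.eq_zero_or_pos T with h | h
  · subst h; simpa using hS
  have h' : 1 ≤ T := h
  have key : |∑ a ∈ Finset.Icc 1 T, (1 / (a : ℝ)) * (g (a + 1) - g a) - g (T + 1) / T| ≤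
      S * (2 - 1 / (T : ℝ)) := by
    clear h
    induction T, h' using Nat.le_induction with
    | base =>
      simp only [Finset.Icc_self, Finset.sum_singleton, Nat.cast_one]
      have : (1 : ℝ) / 1 * (g (1 + 1) - g 1) - g (1 + 1) / 1 = - g 1 := by ring
      rw [this, abs_neg]
      have := hg 1
      linarith
    | succ T hT ih =>
      rw [Finset.sum_Icc_succ_top (by omega)]
      have hT' : (0 : ℝ) < T := by exact_mod_cast hT
      have e1 : ∑ a ∈ Finset.Icc 1 T, (1 / (a : ℝ)) * (g (a + 1) - g a) +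
          (1 / ((T + 1 : ℕ) : ℝ)) * (g (T + 1 + 1) - g (T + 1)) -
          g (T + 1 + 1) / ((T + 1 : ℕ) : ℝ) =
          (∑ a ∈ Finset.Icc 1 T, (1 / (a : ℝ)) * (g (a + 1) - g a) - g (T + 1) / T) +
          g (T + 1) * (1 / (T : ℝ) - 1 / ((T + 1 : ℕ) : ℝ)) := by
        field_simp
        ring
      rw [e1]
      refine (abs_add_le _ _).trans ?_
      have h2 : 0 ≤ 1 / (T : ℝ) - 1 / ((T + 1 : ℕ) : ℝ) := by
        rw [sub_nonneg]
        apply one_div_le_one_div_of_le hT'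
        push_cast
        linarith
      have h3 : |g (T + 1) * (1 / (T : ℝ) - 1 / ((T + 1 : ℕ) : ℝ))| ≤
          S * (1 / (T : ℝ) - 1 / ((T + 1 : ℕ) : ℝ)) := by
        rw [abs_mul, abs_of_nonneg h2]
        exact mul_le_mul_of_nonneg_right (hg _) h2
      linarith
  have hT' : (0 : ℝ) < T := by exact_mod_cast h
  have h4 : |g (T + 1) / T| ≤ S * (1 / (T : ℝ)) := by
    rw [abs_div, abs_of_pos hT', div_eq_mul_one_div]
    exact mul_le_mul_of_nonneg_right (hg _) (by positivity)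
  have h5 : |∑ a ∈ Finset.Icc 1 T, (1 / (a : ℝ)) * (g (a + 1) - g a)| ≤
      |∑ a ∈ Finset.Icc 1 T, (1 / (a : ℝ)) * (g (a + 1) - g a) - g (T + 1) / T| +
      |g (T + 1) / T| := by
    have := abs_add_le (∑ a ∈ Finset.Icc 1 T, (1 / (a : ℝ)) * (g (a + 1) - g a) - g (T + 1) / T)
      (g (T + 1) / T)
    simpa using this
  have h6 : S * (2 - 1 / (T : ℝ)) + S * (1 / (T : ℝ)) = 2 * S := by ring
  linarith

/-- The vectors `v` for which translation invariance holds. -/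
def goodV (m : ℕ) (T x y : ℕ → ℕ) : AddSubgroup (Fin (m + 2) → ℤ) where
  carrier := {v | ∀ f : (Fin (m + 2) → ℤ) → ℝ, Bdd f →
    Tendsto (fun j => avg m (T j) (x j) (y j) (fun ω => f (ω + v)) - avg m (T j) (x j) (y j) f)
      atTop (𝓝 0)}
  zero_mem' := by
    intro f _
    simp
  add_mem' := by
    intro v w hv hw f hf
    have hf' : Bdd (fun ω => f (ω + w)) := by
      obtain ⟨C, hC⟩ := hf
      exact ⟨C, fun ω => hC _⟩
    have h1 := (hv _ hf').add (hw _ hf)
    rw [add_zero] at h1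
    refine h1.congr fun j => ?_
    simp only [sub_add_sub_cancel, add_assoc]
  neg_mem' := by
    intro v hv f hf
    have hf' : Bdd (fun ω => f (ω + -v)) := by
      obtain ⟨C, hC⟩ := hf
      exact ⟨C, fun ω => hC _⟩
    have h1 := (hv _ hf').neg
    rw [neg_zero] at h1
    refine h1.congr fun j => ?_
    simp only [add_assoc, add_neg_cancel, add_zero, neg_sub]

theorem mem_goodV {T x y : ℕ → ℕ} {v : Fin (m + 2) → ℤ} : v ∈ goodV m T x y ↔
    ∀ f : (Fin (m + 2) → ℤ) → ℝ, Bdd f →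
    Tendsto (fun j => avg m (T j) (x j) (y j) (fun ω => f (ω + v)) - avg m (T j) (x j) (y j) f)
      atTop (𝓝 0) := Iff.rfl

theorem pt_add_zero (n n' : ℤ) (t : Fin m → ℤ) : pt n n' t + Pi.single 0 1 = pt (n + 1) n' t := by
  apply eq_pt
  · simp [pt_zero]
  · simp [pt_one]
  · intro l
    rw [Pi.add_apply, pt_succ, Pi.single_eq_of_ne (by exact (Fin.succ_ne_zero _)), add_zero]

theorem one_eq : (1 : Fin (m + 2)) = Fin.succ 0 := rfl

theorem pt_add_one (n n' : ℤ) (t : Fin m → ℤ) : pt n n' t + Pi.single 1 1 = pt n (n' + 1) t := by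
  apply eq_pt
  · simp [pt_zero]
  · simp [pt_one]
  · intro l
    rw [Pi.add_apply, pt_succ, Pi.single_eq_of_ne, add_zero]
    rw [one_eq]
    intro h
    exact Fin.succ_ne_zero _ (Fin.succ_injective _ h)

theorem pt_add_succ (n n' : ℤ) (t : Fin m → ℕ) (l : Fin m) :
    pt n n' (fun i => (t i : ℤ)) + Pi.single l.succ.succ 1 =
      pt n n' (fun i => ((Function.update t l (t l + 1) i : ℕ) : ℤ)) := by
  apply eq_pt
  · rw [Pi.add_apply, pt_zero, Pi.single_eq_of_ne (by exact (Fin.succ_ne_zero _).symm), add_zero]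
  · rw [Pi.add_apply, pt_one, Pi.single_eq_of_ne, add_zero]
    rw [one_eq]
    intro h
    exact Fin.succ_ne_zero _ (Fin.succ_injective _ h).symm
  · intro i
    rw [Pi.add_apply, pt_succ]
    rcases eq_or_ne i l with h | h
    · subst h
      rw [Pi.single_eq_same, Function.update_self]
      push_cast
      ring
    · rw [Pi.single_eq_of_ne, Function.update_of_ne h, add_zero]
      intro h'
      exact h (Fin.succ_injective _ (Fin.succ_injective _ h'))

theorem Sq_comm (f : (Fin (m + 2) → ℤ) → ℝ) (t : Fin m → ℕ) (N : ℕ) :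
    Sq f t N = ∑ n' ∈ Finset.Icc 1 N, ∑ n ∈ Finset.Icc 1 N,
      f (pt (n : ℤ) (n' : ℤ) (fun l => (t l : ℤ))) := by
  unfold Sq
  exact Finset.sum_comm

theorem sq_bound_zero {f : (Fin (m + 2) → ℤ) → ℝ} {C : ℝ} (hf : ∀ ω, |f ω| ≤ C)
    (t : Fin m → ℕ) (N : ℕ) :
    |Sq (fun ω => f (ω + Pi.single 0 1)) t N - Sq f t N| ≤ 2 * C * N := by
  have h1 : Sq (fun ω => f (ω + Pi.single 0 1)) t N - Sq f t N =
      ∑ n' ∈ Finset.Icc 1 N, (f (pt ((N + 1 : ℕ) : ℤ) (n' : ℤ) (fun l => (t l : ℤ))) -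
        f (pt ((1 : ℕ) : ℤ) (n' : ℤ) (fun l => (t l : ℤ)))) := by
    rw [Sq_comm, Sq_comm, ← Finset.sum_sub_distrib]
    refine Finset.sum_congr rfl fun n' _ => ?_
    rw [← Finset.sum_sub_distrib,
      ← tele (fun n => f (pt (n : ℤ) (n' : ℤ) (fun l => (t l : ℤ)))) N]
    refine Finset.sum_congr rfl fun n _ => ?_
    rw [pt_add_zero]
    push_cast
    rfl
  rw [h1]
  refine (Finset.abs_sum_le_sum_abs _ _).trans ?_
  have h2 : ∀ n' ∈ Finset.Icc 1 N, |f (pt ((N + 1 : ℕ) : ℤ) (n' : ℤ) (fun l => (t l : ℤ))) -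
        f (pt ((1 : ℕ) : ℤ) (n' : ℤ) (fun l => (t l : ℤ)))| ≤ 2 * C := by
    intro n' _
    refine (abs_sub _ _).trans ?_
    have := hf (pt ((N + 1 : ℕ) : ℤ) (n' : ℤ) (fun l => (t l : ℤ)))
    have := hf (pt ((1 : ℕ) : ℤ) (n' : ℤ) (fun l => (t l : ℤ)))
    linarith
  refine (Finset.sum_le_sum h2).trans ?_
  simp only [Finset.sum_const, Nat.card_Icc, Nat.add_sub_cancel, nsmul_eq_mul]
  exact le_of_eq (by ring)

theorem sq_bound_one {f : (Fin (m + 2) → ℤ) → ℝ} {C : ℝ} (hf : ∀ ω, |f ω| ≤ C)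
    (t : Fin m → ℕ) (N : ℕ) :
    |Sq (fun ω => f (ω + Pi.single 1 1)) t N - Sq f t N| ≤ 2 * C * N := by
  have h1 : Sq (fun ω => f (ω + Pi.single 1 1)) t N - Sq f t N =
      ∑ n ∈ Finset.Icc 1 N, (f (pt (n : ℤ) ((N + 1 : ℕ) : ℤ) (fun l => (t l : ℤ))) -
        f (pt (n : ℤ) ((1 : ℕ) : ℤ) (fun l => (t l : ℤ)))) := by
    unfold Sq
    rw [← Finset.sum_sub_distrib]
    refine Finset.sum_congr rfl fun n _ => ?_
    rw [← Finset.sum_sub_distrib,
      ← tele (fun n' => f (pt (n : ℤ) (n' : ℤ) (fun l => (t l : ℤ)))) N]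
    refine Finset.sum_congr rfl fun n' _ => ?_
    beta_reduce
    rw [pt_add_one]
    push_cast
    rfl
  rw [h1]
  refine (Finset.abs_sum_le_sum_abs _ _).trans ?_
  have h2 : ∀ n ∈ Finset.Icc 1 N, |f (pt (n : ℤ) ((N + 1 : ℕ) : ℤ) (fun l => (t l : ℤ))) -
        f (pt (n : ℤ) ((1 : ℕ) : ℤ) (fun l => (t l : ℤ)))| ≤ 2 * C := by
    intro n _
    refine (abs_sub _ _).trans ?_
    have := hf (pt (n : ℤ) ((N + 1 : ℕ) : ℤ) (fun l => (t l : ℤ)))
    have := hf (pt (n : ℤ) ((1 : ℕ) : ℤ) (fun l => (t l : ℤ)))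
    linarith
  refine (Finset.sum_le_sum h2).trans ?_
  simp only [Finset.sum_const, Nat.card_Icc, Nat.add_sub_cancel, nsmul_eq_mul]
  exact le_of_eq (by ring)

theorem good_inner {T x y : ℕ → ℕ} (hx : ∀ j, 0 < x j)
    (h : Tendsto (fun j => Real.log ((y j : ℝ) / x j)) atTop atTop) {v : Fin (m + 2) → ℤ}
    (hv : ∀ (f : (Fin (m + 2) → ℤ) → ℝ) (C : ℝ), (∀ ω, |f ω| ≤ C) → ∀ (t : Fin m → ℕ) (N : ℕ),
      |Sq (fun ω => f (ω + v)) t N - Sq f t N| ≤ 2 * C * N) : v ∈ goodV m T x y := by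
  rw [mem_goodV]
  intro f hf
  obtain ⟨C, hC⟩ := hf
  have hC0 := bdd_nonneg hC
  have hL := tendsto_Ls hx h
  refine tendsto_of_bound (E := 2 * (2 * C)) hL ?_
  filter_upwards [hL.eventually_gt_atTop 0] with j hj
  exact avg_diff_inner (by positivity)
    (fun t => Gf_diff_le (by positivity) (hv f C hC t) (hx j) (y j)) hj

theorem Gf_succ (x y : ℕ) (f : (Fin (m + 2) → ℤ) → ℝ) (t : Fin m → ℕ) (l : Fin m) :
    Gf x y (fun ω => f (ω + Pi.single l.succ.succ 1)) t =
      Gf x y f (Function.update t l (t l + 1)) := by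
  unfold Gf Sq
  simp only [pt_add_succ]

theorem good_succ {T x y : ℕ → ℕ} (hT : Tendsto T atTop atTop) (hx : ∀ j, 0 < x j)
    (h : Tendsto (fun j => Real.log ((y j : ℝ) / x j)) atTop atTop) (l : Fin m) :
    (Pi.single l.succ.succ 1 : Fin (m + 2) → ℤ) ∈ goodV m T x y := by
  rw [mem_goodV]
  intro f hf
  obtain ⟨C, hC⟩ := hf
  have hC0 := bdd_nonneg hC
  have hL := tendsto_Ls hx h
  have hH := tendsto_Ls_one hT
  refine tendsto_of_bound (E := 2 * C) hH ?_
  filter_upwards [hL.eventually_gt_atTop 0, hH.eventually_gt_atTop 0] with j hj hj'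
  refine avg_diff_fiber (by positivity) l (fun s => ?_) hj hj'
  have h1 : ∀ a : ℕ, Gf (x j) (y j) (fun ω => f (ω + Pi.single l.succ.succ 1))
      (Function.update s l a) = Gf (x j) (y j) f (Function.update s l (a + 1)) := by
    intro a
    rw [Gf_succ, Function.update_self, Function.update_idem]
  simp only [h1]
  refine (abel_le (g := fun a => Gf (x j) (y j) f (Function.update s l a))
    (S := C * Ls (x j) (y j)) (fun a => Gf_abs_le hC _ _ _) (T j)).trans ?_
  exact le_of_eq (by ring)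

/-- [UA] Asymptotic translation invariance of the finite averages. -/
theorem ua_main : StatementUA := by
  intro m T x y hT hx h v
  rw [← mem_goodV]
  have h1 : v = ∑ i, v i • (Pi.single i 1 : Fin (m + 2) → ℤ) := by
    conv_lhs => rw [← Finset.univ_sum_single v]
    refine Finset.sum_congr rfl fun i _ => ?_
    rw [← Pi.single_smul]
    simp
  rw [h1]
  refine AddSubgroup.sum_mem _ fun i _ => AddSubgroup.zsmul_mem _ ?_ _
  refine fin_cases (P := fun i => (Pi.single i 1 : Fin (m + 2) → ℤ) ∈ goodV m T x y) ?_ ?_ ?_ i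
  · exact good_inner hx h (fun f C hf t N => sq_bound_zero hf t N)
  · exact good_inner hx h (fun f C hf t N => sq_bound_one hf t N)
  · exact fun l => good_succ hT hx h l

end Pool.Agent.H12.LF
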