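import Pool.Agent.H12.LF.Av

/-!
Module UB of the project LF: asymptotic dilation invariance of the finite averages.
-/

set_option autoImplicit false

open Filter Topology

namespace Pool.Agent.H12.LF

open Pool.Agent.H91.LF

variable {m : ℕ}

/-! ### Sums over multiples -/

theorem sum_dvd {p : ℕ} (F : ℕ → ℝ) (n : ℕ) :
    ∑ a ∈ Finset.Icc 1 n, (if p ∣ a then F (a / p) else 0) = ∑ b ∈ Finset.Icc 1 (n / p), F b := by
  induction n with
  | zero => simp
  | succ n ih =>
    rw [Finset.sum_Icc_succ_top (by omega), ih, Nat.succ_div]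
    by_cases h : p ∣ n + 1
    · rw [if_pos h, if_pos h, Finset.sum_Icc_succ_top (Nat.le_add_left 1 _)]
    · rw [if_neg h, if_neg h, add_zero, add_zero]

/-- The tails of weighted harmonic sums. -/
theorem tail_le {h : ℕ → ℝ} {S : ℝ} (hS : ∀ a, |h a| ≤ S) {k n : ℕ} (hkn : k ≤ n) :
    |∑ a ∈ Finset.Icc 1 k, (1 / (a : ℝ)) * h a - ∑ a ∈ Finset.Icc 1 n, (1 / (a : ℝ)) * h a| ≤
      S * (((n : ℝ) - k) / (k + 1)) := by
  have hS0 : 0 ≤ S := (abs_nonneg _).trans (hS 0)
  induction n, hkn using Nat.le_induction with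
  | base => simp
  | succ n hkn ih =>
    rw [Finset.sum_Icc_succ_top (by omega)]
    have e1 : ∑ a ∈ Finset.Icc 1 k, (1 / (a : ℝ)) * h a -
        (∑ a ∈ Finset.Icc 1 n, (1 / (a : ℝ)) * h a + 1 / ((n + 1 : ℕ) : ℝ) * h (n + 1)) =
        (∑ a ∈ Finset.Icc 1 k, (1 / (a : ℝ)) * h a -
        ∑ a ∈ Finset.Icc 1 n, (1 / (a : ℝ)) * h a) + -(1 / ((n + 1 : ℕ) : ℝ) * h (n + 1)) := by
      ring
    rw [e1]
    refine (abs_add_le _ _).trans ?_
    rw [abs_neg, abs_mul, abs_of_nonneg (by positivity : (0 : ℝ) ≤ 1 / ((n + 1 : ℕ) : ℝ))]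
    have hkn' : (k : ℝ) ≤ n := by exact_mod_cast hkn
    have h1 : (1 : ℝ) / ((n + 1 : ℕ) : ℝ) ≤ 1 / ((k : ℝ) + 1) := by
      apply one_div_le_one_div_of_le (by positivity)
      push_cast
      linarith
    have h2 : (1 : ℝ) / ((n + 1 : ℕ) : ℝ) * |h (n + 1)| ≤ 1 / ((k : ℝ) + 1) * S :=
      mul_le_mul h1 (hS _) (abs_nonneg _) (by positivity)
    have e2 : S * ((((n + 1 : ℕ) : ℝ) - k) / (k + 1)) = S * (((n : ℝ) - k) / (k + 1)) +
        1 / ((k : ℝ) + 1) * S := by
      push_cast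
      field_simp
      ring
    rw [e2]
    exact add_le_add ih h2

theorem tail_div_le {h : ℕ → ℝ} {S : ℝ} (hS : ∀ a, |h a| ≤ S) {p : ℕ} (hp : 0 < p) (n : ℕ) :
    |∑ a ∈ Finset.Icc 1 (n / p), (1 / (a : ℝ)) * h a -
      ∑ a ∈ Finset.Icc 1 n, (1 / (a : ℝ)) * h a| ≤ S * p := by
  have hS0 : 0 ≤ S := (abs_nonneg _).trans (hS 0)
  refine (tail_le hS (Nat.div_le_self n p)).trans ?_
  refine mul_le_mul_of_nonneg_left ?_ hS0
  rw [div_le_iff₀ (by positivity)]
  have h1 : n < p * (n / p + 1) := Nat.lt_mul_div_succ n hp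
  have h2 : (n : ℝ) ≤ p * (((n / p : ℕ) : ℝ) + 1) := by exact_mod_cast h1.le
  have h3 : (0 : ℝ) ≤ ((n / p : ℕ) : ℝ) := by positivity
  linarith

/-- Logarithmic sums are dilation invariant up to a bounded error. -/
theorem log_dvd_le {h : ℕ → ℝ} {S : ℝ} (hS : ∀ a, |h a| ≤ S) {p : ℕ} (hp : 0 < p) (n : ℕ) :
    |∑ a ∈ Finset.Icc 1 n, (1 / (a : ℝ)) * ((p : ℝ) * (if p ∣ a then h (a / p) else 0) - h a)| ≤
      S * p := by
  have h1 : ∑ a ∈ Finset.Icc 1 n, (1 / (a : ℝ)) * ((p : ℝ) * (if p ∣ a then h (a / p) else 0) -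
      h a) = ∑ a ∈ Finset.Icc 1 (n / p), (1 / (a : ℝ)) * h a -
      ∑ a ∈ Finset.Icc 1 n, (1 / (a : ℝ)) * h a := by
    rw [← sum_dvd (p := p) (fun a => (1 / (a : ℝ)) * h a) n, ← Finset.sum_sub_distrib]
    refine Finset.sum_congr rfl fun a _ => ?_
    by_cases hd : p ∣ a
    · obtain ⟨b, rfl⟩ := hd
      rw [if_pos (dvd_mul_right _ _), if_pos (dvd_mul_right _ _), Nat.mul_div_cancel_left _ hp]
      have hp' : (0 : ℝ) < p := by exact_mod_cast hp
      push_cast
      rw [mul_sub]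
      congr 1
      field_simp
    · rw [if_neg hd, if_neg hd]
      ring
  rw [h1]
  exact tail_div_le hS hp n

/-- A sum over blocks of length `p`. -/
theorem sum_block {p : ℕ} (hp : 0 < p) {κ : ℕ → ℝ} (h0 : κ 0 = 0) (n : ℕ) :
    ∑ N ∈ Finset.Icc 1 n, κ (N / p) / p = ∑ M ∈ Finset.Icc 1 (n / p), κ M -
      (1 - ((n % p : ℕ) + 1 : ℝ) / p) * κ (n / p) := by
  have hp' : (0 : ℝ) < p := by exact_mod_cast hp
  induction n with
  | zero => simp [h0]
  | succ n ih =>
    rw [Finset.sum_Icc_succ_top (by omega), ih]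
    by_cases h : p ∣ n + 1
    · have h1 : (n + 1) / p = n / p + 1 := by rw [Nat.succ_div, if_pos h]
      have h2 : (n + 1) % p = 0 := Nat.mod_eq_zero_of_dvd h
      have h3 : n % p + 1 = p := by
        have e1 := Nat.div_add_mod n p
        have e2 := Nat.div_add_mod (n + 1) p
        rw [h1, h2] at e2
        have e3 : p * (n / p + 1) = p * (n / p) + p := by ring
        omega
      have h4 : ((n % p : ℕ) : ℝ) + 1 = p := by exact_mod_cast h3
      rw [h1, h2, h4, div_self hp'.ne', Finset.sum_Icc_succ_top (Nat.le_add_left 1 _)]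
      push_cast
      ring
    · have h1 : (n + 1) / p = n / p := by rw [Nat.succ_div, if_neg h, add_zero]
      have h2 : (n + 1) % p = n % p + 1 := by
        have e1 := Nat.div_add_mod n p
        have e2 := Nat.div_add_mod (n + 1) p
        rw [h1] at e2
        omega
      rw [h1, h2]
      push_cast
      ring

/-! ### The natural averages -/

/-- Comparison of the two weights. -/
theorem weight_le {p : ℕ} (hp : 0 < p) {N : ℕ} (hN : 0 < N) (h : ℝ) {C : ℝ} (hC : |h| ≤ C) :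
    |1 / (N : ℝ) * ((p : ℝ) ^ 2 * (h * ((N / p : ℕ) : ℝ) ^ 2) / (N : ℝ) ^ 2) -
      (1 / (((N / p : ℕ) : ℝ)) * h) / p| ≤ 6 * p * C * (1 / (N : ℝ) ^ 2) := by
  have hC0 : 0 ≤ C := (abs_nonneg _).trans hC
  have hp' : (0 : ℝ) < p := by exact_mod_cast hp
  have hN' : (0 : ℝ) < N := by exact_mod_cast hN
  rcases Nat.eq_zero_or_pos (N / p) with hM | hM
  · rw [hM]
    simp only [Nat.cast_zero, div_zero, zero_mul, zero_div, sub_zero]
    norm_num
    positivity
  · have hM' : (0 : ℝ) < ((N / p : ℕ) : ℝ) := by exact_mod_cast hM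
    set M : ℝ := ((N / p : ℕ) : ℝ) with hMdef
    have hM1 : (1 : ℝ) ≤ M := by rw [hMdef]; exact_mod_cast hM
    have hq1 : (p : ℝ) * M ≤ N := by
      rw [hMdef]
      exact_mod_cast Nat.mul_div_le N p
    have hq2 : (N : ℝ) ≤ p * M + p := by
      have := (Nat.lt_mul_div_succ N hp).le
      have h5 : (N : ℝ) ≤ p * (((N / p : ℕ) : ℝ) + 1) := by exact_mod_cast this
      rw [← hMdef] at h5
      linarith
    set q : ℝ := (p : ℝ) * M with hq
    have hq0 : 0 < q := mul_pos hp' hM'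
    have hq3 : (p : ℝ) ≤ q := by rw [hq]; nlinarith
    have hq4 : (N : ℝ) ≤ 2 * q := by linarith
    have e1 : 1 / (N : ℝ) * ((p : ℝ) ^ 2 * (h * M ^ 2) / (N : ℝ) ^ 2) - (1 / M * h) / p =
        h * (q ^ 2 / (N : ℝ) ^ 3 - 1 / q) := by
      rw [hq]
      field_simp
    rw [e1, abs_mul]
    have h2 : |q ^ 2 / (N : ℝ) ^ 3 - 1 / q| ≤ 6 * p * (1 / (N : ℝ) ^ 2) := by
      rw [abs_sub_comm]
      have e2 : 1 / q - q ^ 2 / (N : ℝ) ^ 3 =
          ((N : ℝ) - q) * ((N : ℝ) ^ 2 + N * q + q ^ 2) / (q * (N : ℝ) ^ 3) := by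
        field_simp
        ring
      have hnn : 0 ≤ ((N : ℝ) - q) * ((N : ℝ) ^ 2 + N * q + q ^ 2) :=
        mul_nonneg (by linarith) (by positivity)
      rw [e2, abs_of_nonneg (div_nonneg hnn (by positivity)), div_le_iff₀ (by positivity)]
      have e3 : 6 * (p : ℝ) * (1 / (N : ℝ) ^ 2) * (q * (N : ℝ) ^ 3) = 6 * p * q * N := by
        field_simp
      rw [e3]
      have h3 : ((N : ℝ) - q) * ((N : ℝ) ^ 2 + N * q + q ^ 2) ≤ p * (3 * (N : ℝ) ^ 2) := by
        apply mul_le_mul (by linarith) _ (by positivity) (by positivity)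
        nlinarith
      have h4 : (p : ℝ) * (3 * (N : ℝ) ^ 2) ≤ 6 * p * q * N := by
        have : (N : ℝ) ^ 2 ≤ 2 * q * N := by nlinarith
        nlinarith
      linarith
    calc |h| * |q ^ 2 / (N : ℝ) ^ 3 - 1 / q| ≤ C * (6 * p * (1 / (N : ℝ) ^ 2)) :=
          mul_le_mul hC h2 (abs_nonneg _) hC0
      _ = _ := by ring

/-- The natural part, sums from `1`. -/
theorem nat_part_one {p : ℕ} (hp : 0 < p) {h : ℕ → ℝ} {C : ℝ} (hC : ∀ N, |h N| ≤ C) (n : ℕ) :
    |∑ N ∈ Finset.Icc 1 n, 1 / (N : ℝ) * ((p : ℝ) ^ 2 * (h (N / p) * ((N / p : ℕ) : ℝ) ^ 2) /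
      (N : ℝ) ^ 2) - ∑ N ∈ Finset.Icc 1 n, 1 / (N : ℝ) * h N| ≤ 12 * p * C + C + C * p := by
  have hC0 : 0 ≤ C := (abs_nonneg _).trans (hC 0)
  have hp' : (0 : ℝ) < p := by exact_mod_cast hp
  set κ : ℕ → ℝ := fun M => 1 / (M : ℝ) * h M with hκ
  have hκ0 : κ 0 = 0 := by simp [hκ]
  have h1 : |∑ N ∈ Finset.Icc 1 n, 1 / (N : ℝ) * ((p : ℝ) ^ 2 * (h (N / p) *
      ((N / p : ℕ) : ℝ) ^ 2) / (N : ℝ) ^ 2) - ∑ N ∈ Finset.Icc 1 n, κ (N / p) / p| ≤
      12 * p * C := by
    rw [← Finset.sum_sub_distrib]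
    refine (Finset.abs_sum_le_sum_abs _ _).trans ?_
    refine (Finset.sum_le_sum (g := fun N : ℕ => 6 * p * C * (1 / (N : ℝ) ^ 2)) ?_).trans ?_
    · intro N hN
      exact weight_le hp (Finset.mem_Icc.1 hN).1 _ (hC _)
    · rw [← Finset.mul_sum]
      calc 6 * (p : ℝ) * C * ∑ N ∈ Finset.Icc 1 n, 1 / (N : ℝ) ^ 2 ≤ 6 * (p : ℝ) * C * 2 :=
            mul_le_mul_of_nonneg_left (sum_inv_sq_le Nat.one_pos n) (by positivity)
        _ = _ := by ring
  have h2 := sum_block hp hκ0 n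
  have h3 : |(1 - ((n % p : ℕ) + 1 : ℝ) / p) * κ (n / p)| ≤ C := by
    have h31 : ((n % p : ℕ) : ℝ) + 1 ≤ p := by exact_mod_cast Nat.mod_lt n hp
    have h32 : ((n % p : ℕ) + 1 : ℝ) / p ≤ 1 := by
      rw [div_le_one hp']; exact h31
    have h33 : (0 : ℝ) ≤ ((n % p : ℕ) + 1 : ℝ) / p := by positivity
    rw [abs_mul]
    have h34 : |1 - ((n % p : ℕ) + 1 : ℝ) / p| ≤ 1 := by
      rw [abs_le]; constructor <;> linarith
    have h35 : |κ (n / p)| ≤ C := by
      rcases Nat.eq_zero_or_pos (n / p) with hM | hM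
      · rw [hM, hκ0]; simpa using hC0
      · rw [hκ, abs_mul, abs_of_nonneg (by positivity)]
        have hM1 : (1 : ℝ) ≤ ((n / p : ℕ) : ℝ) := by exact_mod_cast hM
        have h36 : 1 / ((n / p : ℕ) : ℝ) ≤ 1 := by
          rw [div_le_one (by linarith)]; exact hM1
        calc 1 / ((n / p : ℕ) : ℝ) * |h (n / p)| ≤ 1 * C :=
              mul_le_mul h36 (hC _) (abs_nonneg _) zero_le_one
          _ = C := one_mul C
    calc |1 - ((n % p : ℕ) + 1 : ℝ) / p| * |κ (n / p)| ≤ 1 * C :=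
          mul_le_mul h34 h35 (abs_nonneg _) zero_le_one
      _ = C := one_mul C
  have h4 := tail_div_le hC hp n
  rw [abs_le] at h1 h3 h4 ⊢
  rw [h2] at h1
  constructor <;> linarith [h1.1, h1.2, h3.1, h3.2, h4.1, h4.2]

/-- The natural part. -/
theorem nat_part {p : ℕ} (hp : 0 < p) {h : ℕ → ℝ} {C : ℝ} (hC : ∀ N, |h N| ≤ C) (x y : ℕ)
    (hx : 0 < x) :
    |∑ N ∈ Finset.Icc x y, 1 / (N : ℝ) * ((p : ℝ) ^ 2 * (h (N / p) * ((N / p : ℕ) : ℝ) ^ 2) /
      (N : ℝ) ^ 2) - ∑ N ∈ Finset.Icc x y, 1 / (N : ℝ) * h N| ≤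
      2 * (12 * p * C + C + C * p) := by
  have hC0 : 0 ≤ C := (abs_nonneg _).trans (hC 0)
  rcases lt_or_ge y x with hyx | hxy
  · rw [Finset.Icc_eq_empty (by omega)]
    simp only [Finset.sum_empty, sub_zero, abs_zero]
    positivity
  have split : ∀ F : ℕ → ℝ, ∑ N ∈ Finset.Icc x y, F N =
      ∑ N ∈ Finset.Icc 1 y, F N - ∑ N ∈ Finset.Icc 1 (x - 1), F N := by
    intro F
    have e1 : Finset.Icc 1 y = Finset.Icc 1 (x - 1) ∪ Finset.Icc x y := by
      ext i
      simp only [Finset.mem_union, Finset.mem_Icc]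
      omega
    have e2 : Disjoint (Finset.Icc 1 (x - 1)) (Finset.Icc x y) := by
      rw [Finset.disjoint_left]
      intro i hi hi'
      simp only [Finset.mem_Icc] at hi hi'
      omega
    rw [e1, Finset.sum_union e2]
    ring
  rw [split, split (fun N => 1 / (N : ℝ) * h N)]
  have h1 := nat_part_one hp hC y
  have h2 := nat_part_one hp hC (x - 1)
  rw [abs_le] at h1 h2 ⊢
  constructor <;> linarith [h1.1, h1.2, h2.1, h2.2]

/-! ### The dilation operators -/

open Classical in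
/-- Dilation by `p` in the coordinates of `S`. -/
noncomputable def dl (p : ℕ) (S : Finset (Fin (m + 2))) (g : (Fin (m + 2) → ℤ) → ℝ) :
    (Fin (m + 2) → ℤ) → ℝ := fun ω =>
  (p : ℝ) ^ S.card * if ∀ i ∈ S, (p : ℤ) ∣ ω i then g (fun i => if i ∈ S then ω i / p else ω i)
    else 0

theorem dl_abs_le {p : ℕ} (S : Finset (Fin (m + 2))) {g : (Fin (m + 2) → ℤ) → ℝ} {C : ℝ}
    (hg : ∀ ω, |g ω| ≤ C) (ω : Fin (m + 2) → ℤ) : |dl p S g ω| ≤ (p : ℝ) ^ S.card * C := by
  have hC : 0 ≤ C := (abs_nonneg _).trans (hg 0)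
  unfold dl
  rw [abs_mul, abs_of_nonneg (by positivity : (0 : ℝ) ≤ (p : ℝ) ^ S.card)]
  refine mul_le_mul_of_nonneg_left ?_ (by positivity)
  split_ifs
  · exact hg _
  · simpa using hC

theorem dl_dl {p : ℕ} {A S : Finset (Fin (m + 2))} (hAS : Disjoint A S)
    (g : (Fin (m + 2) → ℤ) → ℝ) : dl p A (dl p S g) = dl p (A ∪ S) g := by
  classical
  funext ω
  unfold dl
  rw [Finset.card_union_of_disjoint hAS, pow_add]
  by_cases hA : ∀ i ∈ A, (p : ℤ) ∣ ω i
  · rw [if_pos hA]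
    by_cases hS : ∀ i ∈ S, (p : ℤ) ∣ ω i
    · have h1 : ∀ i ∈ S, (p : ℤ) ∣ (if i ∈ A then ω i / p else ω i) := by
        intro i hi
        rw [if_neg (fun h => (Finset.disjoint_left.1 hAS h hi))]
        exact hS i hi
      have h2 : ∀ i ∈ A ∪ S, (p : ℤ) ∣ ω i := by
        intro i hi
        rcases Finset.mem_union.1 hi with h | h
        · exact hA i h
        · exact hS i h
      rw [if_pos h1, if_pos h2, mul_assoc]
      congr 3
      funext i
      by_cases hiS : i ∈ S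
      · have hiA : i ∉ A := fun h => Finset.disjoint_left.1 hAS h hiS
        simp [hiS, hiA]
      · by_cases hiA : i ∈ A <;> simp [hiS, hiA]
    · have h1 : ¬ ∀ i ∈ S, (p : ℤ) ∣ (if i ∈ A then ω i / p else ω i) := by
        intro h
        apply hS
        intro i hi
        have := h i hi
        rwa [if_neg (fun h => (Finset.disjoint_left.1 hAS h hi))] at this
      have h2 : ¬ ∀ i ∈ A ∪ S, (p : ℤ) ∣ ω i := by
        intro h
        exact hS fun i hi => h i (Finset.mem_union_right _ hi)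
      rw [if_neg h1, if_neg h2]
      ring
  · have h2 : ¬ ∀ i ∈ A ∪ S, (p : ℤ) ∣ ω i := by
      intro h
      exact hA fun i hi => h i (Finset.mem_union_left _ hi)
    rw [if_neg hA, if_neg h2]
    ring

/-- The sets of coordinates for which dilation invariance holds. -/
def goodS (T x y : ℕ → ℕ) (p : ℕ) (S : Finset (Fin (m + 2))) : Prop :=
  ∀ g : (Fin (m + 2) → ℤ) → ℝ, Bdd g →
    Tendsto (fun j => avg m (T j) (x j) (y j) (dl p S g) - avg m (T j) (x j) (y j) g) atTop (𝓝 0)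

theorem goodS_union {T x y : ℕ → ℕ} {p : ℕ} {A S : Finset (Fin (m + 2))} (hAS : Disjoint A S)
    (hA : goodS T x y p A) (hS : goodS T x y p S) : goodS T x y p (A ∪ S) := by
  intro g hg
  have hg' : Bdd (dl p S g) := by
    obtain ⟨C, hC⟩ := hg
    exact ⟨_, dl_abs_le S hC⟩
  have h1 := (hA _ hg').add (hS _ hg)
  rw [add_zero] at h1
  refine h1.congr fun j => ?_
  rw [dl_dl hAS, sub_add_sub_cancel]

theorem goodS_empty {T x y : ℕ → ℕ} {p : ℕ} : goodS (m := m) T x y p ∅ := by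
  intro g _
  have : dl p ∅ g = g := by
    funext ω
    unfold dl
    simp
  rw [this]
  simp

theorem succ_ne_zero' (l : Fin m) : (l.succ.succ : Fin (m + 2)) ≠ 0 := Fin.succ_ne_zero _

theorem succ_ne_one' (l : Fin m) : (l.succ.succ : Fin (m + 2)) ≠ 1 := by
  intro h
  have h1 : (1 : Fin (m + 2)) = Fin.succ 0 := rfl
  rw [h1] at h
  exact Fin.succ_ne_zero _ (Fin.succ_injective _ h)

theorem dl_succ (p : ℕ) (l : Fin m) (g : (Fin (m + 2) → ℤ) → ℝ) (n n' : ℤ) (t : Fin m → ℕ) :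
    dl p {l.succ.succ} g (pt n n' (fun i => (t i : ℤ))) = (p : ℝ) * if p ∣ t l then
      g (pt n n' (fun i => ((Function.update t l (t l / p) i : ℕ) : ℤ))) else 0 := by
  classical
  unfold dl
  rw [Finset.card_singleton, pow_one]
  congr 1
  have h1 : (∀ i ∈ ({l.succ.succ} : Finset (Fin (m + 2))), (p : ℤ) ∣
      pt n n' (fun i => (t i : ℤ)) i) ↔ p ∣ t l := by
    simp only [Finset.mem_singleton, forall_eq, pt_succ]
    exact Int.natCast_dvd_natCast
  have h2 : (fun i => if i ∈ ({l.succ.succ} : Finset (Fin (m + 2))) then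
      pt n n' (fun i => (t i : ℤ)) i / p else pt n n' (fun i => (t i : ℤ)) i) =
      pt n n' (fun i => ((Function.update t l (t l / p) i : ℕ) : ℤ)) := by
    apply eq_pt
    · simp only [Finset.mem_singleton]
      rw [if_neg (succ_ne_zero' l).symm, pt_zero]
    · simp only [Finset.mem_singleton]
      rw [if_neg (succ_ne_one' l).symm, pt_one]
    · intro i
      simp only [Finset.mem_singleton]
      rcases eq_or_ne i l with h | h
      · subst h
        rw [if_pos rfl, pt_succ, Function.update_self]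
        push_cast
        rfl
      · rw [if_neg, pt_succ, Function.update_of_ne h]
        intro h'
        exact h (Fin.succ_injective _ (Fin.succ_injective _ h'))
  rw [h2]
  exact if_congr h1 rfl rfl

theorem Gf_dl_succ (p : ℕ) (l : Fin m) (x y : ℕ) (g : (Fin (m + 2) → ℤ) → ℝ) (t : Fin m → ℕ) :
    Gf x y (dl p {l.succ.succ} g) t = (p : ℝ) * if p ∣ t l then
      Gf x y g (Function.update t l (t l / p)) else 0 := by
  unfold Gf Sq
  simp only [dl_succ]
  by_cases h : p ∣ t l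
  · simp only [if_pos h]
    rw [Finset.mul_sum]
    refine Finset.sum_congr rfl fun N _ => ?_
    simp only [← Finset.mul_sum]
    ring
  · simp only [if_neg h, mul_zero, Finset.sum_const_zero, zero_div]

theorem goodS_succ {T x y : ℕ → ℕ} (hT : Tendsto T atTop atTop) (hx : ∀ j, 0 < x j)
    (h : Tendsto (fun j => Real.log ((y j : ℝ) / x j)) atTop atTop) {p : ℕ} (hp : 0 < p)
    (l : Fin m) : goodS T x y p {l.succ.succ} := by
  intro g hg
  obtain ⟨C, hC⟩ := hg
  have hC0 : 0 ≤ C := (abs_nonneg _).trans (hC 0)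
  have hL := tendsto_Ls hx h
  have hH := tendsto_Ls_one hT
  refine tendsto_of_bound (E := C * p) hH ?_
  filter_upwards [hL.eventually_gt_atTop 0, hH.eventually_gt_atTop 0] with j hj hj'
  refine avg_diff_fiber (by positivity) l (fun s => ?_) hj hj'
  have h1 : ∀ a : ℕ, Gf (x j) (y j) (dl p {l.succ.succ} g) (Function.update s l a) =
      (p : ℝ) * if p ∣ a then Gf (x j) (y j) g (Function.update s l (a / p)) else 0 := by
    intro a
    rw [Gf_dl_succ, Function.update_self, Function.update_idem]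
  simp only [h1]
  refine (log_dvd_le (h := fun a => Gf (x j) (y j) g (Function.update s l a))
    (S := C * Ls (x j) (y j)) (fun a => Gf_abs_le hC _ _ _) hp (T j)).trans ?_
  exact le_of_eq (by ring)

theorem dl_pair (p : ℕ) (g : (Fin (m + 2) → ℤ) → ℝ) (n n' : ℕ) (t : Fin m → ℤ) :
    dl p {0, 1} g (pt (n : ℤ) (n' : ℤ) t) = (p : ℝ) ^ 2 * if p ∣ n then
      (if p ∣ n' then g (pt ((n / p : ℕ) : ℤ) ((n' / p : ℕ) : ℤ) t) else 0) else 0 := by
  classical
  unfold dl
  have h01 : (0 : Fin (m + 2)) ≠ 1 := by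
    intro h
    have h1 : (1 : Fin (m + 2)) = Fin.succ 0 := rfl
    rw [h1] at h
    exact Fin.succ_ne_zero _ h.symm
  rw [Finset.card_pair h01]
  congr 1
  have h1 : (∀ i ∈ ({0, 1} : Finset (Fin (m + 2))), (p : ℤ) ∣ pt (n : ℤ) (n' : ℤ) t i) ↔
      (p ∣ n ∧ p ∣ n') := by
    simp only [Finset.mem_insert, Finset.mem_singleton, forall_eq_or_imp, forall_eq, pt_zero,
      pt_one]
    rw [Int.natCast_dvd_natCast, Int.natCast_dvd_natCast]
  have h2 : (fun i => if i ∈ ({0, 1} : Finset (Fin (m + 2))) then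
      pt (n : ℤ) (n' : ℤ) t i / p else pt (n : ℤ) (n' : ℤ) t i) =
      pt ((n / p : ℕ) : ℤ) ((n' / p : ℕ) : ℤ) t := by
    apply eq_pt
    · rw [if_pos (by simp), pt_zero]
      push_cast
      rfl
    · rw [if_pos (by simp), pt_one]
      push_cast
      rfl
    · intro i
      rw [if_neg, pt_succ]
      simp only [Finset.mem_insert, Finset.mem_singleton, not_or]
      exact ⟨succ_ne_zero' i, succ_ne_one' i⟩
  rw [h2, ← ite_and]
  exact if_congr h1 rfl rfl

theorem Sq_dl_pair (p : ℕ) (g : (Fin (m + 2) → ℤ) → ℝ) (t : Fin m → ℕ) (N : ℕ) :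
    Sq (dl p {0, 1} g) t N = (p : ℝ) ^ 2 * Sq g t (N / p) := by
  unfold Sq
  simp only [dl_pair]
  rw [← sum_dvd (p := p) (fun n => ∑ n' ∈ Finset.Icc 1 (N / p),
    g (pt (n : ℤ) (n' : ℤ) (fun l => (t l : ℤ)))) N, Finset.mul_sum]
  refine Finset.sum_congr rfl fun n _ => ?_
  by_cases h : p ∣ n
  · simp only [if_pos h]
    rw [← sum_dvd (p := p) (fun n' => g (pt ((n / p : ℕ) : ℤ) (n' : ℤ) (fun l => (t l : ℤ)))) N,
      Finset.mul_sum]
  · simp only [if_neg h, mul_zero, Finset.sum_const_zero]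

theorem goodS_pair {T x y : ℕ → ℕ} (hx : ∀ j, 0 < x j)
    (h : Tendsto (fun j => Real.log ((y j : ℝ) / x j)) atTop atTop) {p : ℕ} (hp : 0 < p) :
    goodS (m := m) T x y p {0, 1} := by
  intro g hg
  obtain ⟨C, hC⟩ := hg
  have hC0 : 0 ≤ C := (abs_nonneg _).trans (hC 0)
  have hL := tendsto_Ls hx h
  refine tendsto_of_bound (E := 2 * (12 * p * C + C + C * p)) hL ?_
  filter_upwards [hL.eventually_gt_atTop 0] with j hj
  refine avg_diff_inner (by positivity) (fun t => ?_) hj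
  have h1 := nat_part hp (h := fun N => Sq g t N / (N : ℝ) ^ 2) (C := C)
    (fun N => Sq_div_abs_le hC t N) (x j) (y j) (hx j)
  have h2 : Gf (x j) (y j) (dl p {0, 1} g) t = ∑ N ∈ Finset.Icc (x j) (y j), 1 / (N : ℝ) *
      ((p : ℝ) ^ 2 * ((fun N : ℕ => Sq g t N / (N : ℝ) ^ 2) (N / p) * ((N / p : ℕ) : ℝ) ^ 2) /
      (N : ℝ) ^ 2) := by
    unfold Gf
    refine Finset.sum_congr rfl fun N _ => ?_
    rw [Sq_dl_pair]
    congr 3
    beta_reduce
    rcases Nat.eq_zero_or_pos (N / p) with h0 | h0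
    · rw [h0]
      unfold Sq
      simp
    · have : (0 : ℝ) < ((N / p : ℕ) : ℝ) := by exact_mod_cast h0
      field_simp
  rw [h2]
  exact h1

/-- [UB] Asymptotic dilation invariance of the finite averages. -/
theorem ub_main : StatementUB := by
  classical
  intro m T x y hT hx h p hp f hf
  have h1 : ∀ A : Finset (Fin m), goodS T x y p
      (A.image (fun l : Fin m => (l.succ.succ : Fin (m + 2)))) := by
    intro A
    induction A using Finset.induction_on with
    | empty => rw [Finset.image_empty]; exact goodS_empty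
    | insert l A hl ih =>
      rw [Finset.image_insert, Finset.insert_eq]
      refine goodS_union ?_ (goodS_succ hT hx h hp l) ih
      rw [Finset.disjoint_singleton_left]
      intro hm
      obtain ⟨l', hl', he⟩ := Finset.mem_image.1 hm
      have := Fin.succ_injective _ (Fin.succ_injective _ he)
      subst this
      exact hl hl'
  have h2 : goodS (m := m) T x y p ({0, 1} ∪
      (Finset.univ.image (fun l : Fin m => (l.succ.succ : Fin (m + 2))))) := by
    refine goodS_union ?_ (goodS_pair hx h hp) (h1 _)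
    rw [Finset.disjoint_left]
    intro i hi hi'
    obtain ⟨l', _, he⟩ := Finset.mem_image.1 hi'
    simp only [Finset.mem_insert, Finset.mem_singleton] at hi
    rcases hi with h | h
    · exact succ_ne_zero' l' (he.trans h)
    · exact succ_ne_one' l' (he.trans h)
  have h3 : ({0, 1} ∪ (Finset.univ.image (fun l : Fin m => (l.succ.succ : Fin (m + 2))))) =
      (Finset.univ : Finset (Fin (m + 2))) := by
    ext i
    simp only [Finset.mem_univ, iff_true]
    refine fin_cases (P := fun i => i ∈ ({0, 1} ∪ (Finset.univ.image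
      (fun l : Fin m => (l.succ.succ : Fin (m + 2)))))) ?_ ?_ ?_ i
    · simp
    · simp
    · intro l
      simp
  rw [h3] at h2
  have h4 : dl p Finset.univ f = fun ω => (p : ℝ) ^ (m + 2) *
      if ∀ i, (p : ℤ) ∣ ω i then f (fun i => ω i / p) else 0 := by
    funext ω
    unfold dl
    simp
  have h5 := h2 f hf
  rw [h4] at h5
  exact h5

end Pool.Agent.H12.LF
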